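import Mathlib
import Pool.Agent.P8H29.UI.Fin

/-!
# Uniform boundedness for `z ^ d + c` in characteristic `p` dividing `d`

(project UI, by helper29; the existence of the places with a derivation, the reduction to an
algebraically closed field of constants and the energy bound for finite sets are due to helper52)
-/

namespace Pool.Agent.Results.MP_9b502d_nt.CharDividesDegree

open IntermediateField

universe u v w

/-- Let `p` be a prime number, `k` a field of characteristic `p` and `K` a function field of one
variable over `k`: `t` in `K` is transcendental over `k`, and `K` has finite degree over `k(t)`.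
Let `d` be divisible by `p` and not a power of `p` (for `d = p ^ e` every map `z ^ d + c` is
isotrivial; for the other `d` the map `z ^ d + c` is isotrivial only if `c` is algebraic over `k`).

(1) There is a number `B`, depending only on `K` and `d`, such that for every purely inseparable
extension `M` of `K`, of any degree, and for all `c` in `M` transcendental over `k` the map
`z ^ d + c` has at most `B` preperiodic points in `M` (besides the fixed point `∞`).

(2) If `K = k(t)`, then for all these `M` and `c` the map `z ^ d + c` has at most `6` periodic points
and at most `3 * d` preperiodic points in `M`. -/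
theorem result (p : ℕ) [Fact p.Prime] (k : Type v) (K : Type u) [Field k] [CharP k p] [Field K]
    [Algebra k K] (t : K) (ht : Transcendental k t) (hK : FiniteDimensional k⟮t⟯ K)
    (d : ℕ) (hpd : p ∣ d) (hd0 : d ≠ 0) (hd : ∀ e : ℕ, d ≠ p ^ e) :
    (∃ B : ℕ, ∀ (M : Type w) [Field M] [Algebra k M] [Algebra K M] [IsScalarTower k K M]
      [IsPurelyInseparable K M] (c : M), Transcendental k c →
      {x : M | (Set.range fun n : ℕ => (fun z : M => z ^ d + c)^[n] x).Finite}.encard ≤
        (B : ℕ∞)) ∧
    (k⟮t⟯ = ⊤ → ∀ (M : Type w) [Field M] [Algebra k M] [Algebra K M] [IsScalarTower k K M]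
      [IsPurelyInseparable K M] (c : M), Transcendental k c →
      {x : M | (Set.range fun n : ℕ => (fun z : M => z ^ d + c)^[n] x).Finite}.encard ≤
        ((3 * d : ℕ) : ℕ∞) ∧
      {x : M | ∃ n : ℕ, 0 < n ∧ (fun z : M => z ^ d + c)^[n] x = x}.encard ≤ ((6 : ℕ) : ℕ∞)) :=
  Pool.Agent.P8H29.UI.final p k K t ht hK d hpd hd0 hd

end Pool.Agent.Results.MP_9b502d_nt.CharDividesDegree
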